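import Pool.Agent.Run7.h520.MZ.I

/-!
# MP_5076ba_lc, pieces COV and FINT: types and similarity, finitely many classes
-/

set_option autoImplicit false

namespace Run7.h160.MZ
open FirstOrder FirstOrder.Language Run7.h520.MZ

theorem fint : S_FINT := by
  classical
  intro α _
  have hfc : Finite (α →₀ ZMod 2) :=
    Finite.of_injective (fun c : α →₀ ZMod 2 => (c : α → ZMod 2)) DFunLike.coe_injective
  obtain ⟨Φ, hΦ⟩ : ∃ Φ : (α → M0) → (α → Prop) × (α → α → Prop) × ((α →₀ ZMod 2) → Prop),
      ∀ t, Φ t = (fun i => isP (t i), fun i j => t i = t j, fun c => lc t c = 0) := ⟨_, fun _ => rfl⟩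
  have hne : Nonempty (α → M0) := ⟨fun _ => Sum.inl 0⟩
  refine ⟨Set.range (Function.invFun Φ), Set.finite_range _, fun t =>
    ⟨Function.invFun Φ (Φ t), ⟨_, rfl⟩, ?_⟩⟩
  obtain ⟨r, hr⟩ : ∃ r, r = Function.invFun Φ (Φ t) := ⟨_, rfl⟩
  have h1 : Φ r = Φ t := by rw [hr]; exact Function.invFun_eq ⟨t, rfl⟩
  rw [← hr]
  rw [hΦ, hΦ] at h1
  simp only [Prod.mk.injEq] at h1
  exact ⟨fun i => iff_of_eq (congrFun h1.1 i), fun i j => iff_of_eq (congrFun (congrFun h1.2.1 i) j),
    fun c => iff_of_eq (congrFun h1.2.2 c)⟩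

theorem lc_eq {α : Type} (s : α → M0) (c : α →₀ ZMod 2) : lc s c = ∑ i ∈ c.support, val (s i) := by
  rw [lc, Finsupp.linearCombination_apply, Finsupp.sum]
  refine Finset.sum_congr rfl fun i hi => ?_
  have h1 : c i ≠ 0 := Finsupp.mem_support_iff.1 hi
  have h2 : ∀ z : ZMod 2, z ≠ 0 → z = 1 := by decide
  rw [h2 _ h1, one_smul]

theorem cov : S_COV := by
  classical
  intro α s t h
  refine ⟨fun i => ?_, fun i j => ?_, fun c => ?_⟩
  · have h2 : ∀ r : α → M0, (Relations.formula₁ (L := LZ) (Rel.P : LZ.Relations 1)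
        (Term.var i)).Realize r ↔ isP (r i) := fun r => Iff.rfl
    have h1 := h (Relations.formula₁ (L := LZ) (Rel.P : LZ.Relations 1) (Term.var i))
    rw [h2, h2] at h1
    exact h1
  · have h1 := h (Term.equal (L := LZ) (Term.var i) (Term.var j))
    rw [Formula.realize_equal, Formula.realize_equal] at h1
    exact h1
  · have h1 := h (Relations.formula (L := LZ) (Rel.lin c.support.card : LZ.Relations c.support.card)
      (fun k => Term.var (c.support.equivFin.symm k : α)))
    have h2 : ∀ r : α → M0, (Relations.formula (L := LZ)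
        (Rel.lin c.support.card : LZ.Relations c.support.card)
        (fun k => Term.var (c.support.equivFin.symm k : α))).Realize r ↔ lc r c = 0 := by
      intro r
      rw [lc_eq]
      change (∑ k, val (r (c.support.equivFin.symm k : α)) = 0) ↔ _
      rw [← Finset.sum_coe_sort c.support, ← Equiv.sum_comp c.support.equivFin.symm]
    rw [h2, h2] at h1
    exact h1

end Run7.h160.MZ
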